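import Pool.Agent.RCM.Stmts

/-!
# RCM row EXZ (helper35): `h = z = 2` is impossible
-/

set_option autoImplicit false

namespace Pool.Agent.RCM.H35

open Set Pool.Agent.RCM

universe u

/-- an independent set of `n` elements in the closure of an independent set of at most `n` elements
has the same closure -/
theorem cl_eq_of_card {E : Type u} [Finite E] {M : Matroid E} {A B : Set E} (hA : M.Indep A)
    (hB : M.Indep B) (hAB : A ⊆ M.closure B) (hc : B.ncard ≤ A.ncard) :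
    M.closure A = M.closure B := by
  have h1 : M.eRk A = (A.ncard : ℕ∞) := by
    rw [hA.eRk_eq_encard, Set.ncard_def, ENat.natCast_toNat]
    exact Set.encard_ne_top_iff.2 (toFinite A)
  have h2 : M.eRk B = (B.ncard : ℕ∞) := by
    rw [hB.eRk_eq_encard, Set.ncard_def, ENat.natCast_toNat]
    exact Set.encard_ne_top_iff.2 (toFinite B)
  have h3 : M.eRk (M.closure B) ≤ M.eRk A := by
    rw [M.eRk_closure_eq, h1, h2]
    exact_mod_cast hc
  have hf : M.IsRkFinite A := M.isRkFinite_of_finite (toFinite A)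
  have := hf.closure_eq_closure_of_subset_of_eRk_ge_eRk hAB h3
  rw [this, M.closure_closure]

theorem exz (hlsd : LsdStmt.{u}) (hrmv : RmvStmt.{u}) (hmvb : MvbStmt.{u}) (hrch : RchStmt.{u})
    (hcir : CirStmt.{u}) : ExzStmt.{u} := by
  classical
  intro E K _ _ M N κ s t P X T hcol hmx hst hun hs
  obtain ⟨c, hcX, hcT⟩ := hun
  have hrm := hrmv E K M N κ s t P X T c 2 hcol hmx hst hcX hcT hs
  obtain ⟨hY2, hYs⟩ := hrm
  by_contra hlt
  have hh : (T \ Sta M N κ P X T).ncard ≤ 2 := by omega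
  have hg : ∀ x, x ∈ M.E := fun x => (hcol.indM (κ x)).subset_ground (by simp)
  -- the class of `g` outside the flat
  have hL : ∀ g T', Rc M N κ P X T T' → g ∉ X → g ∉ κ '' T' →
      M.closure {x | κ x = g ∧ x ∉ Ph M N κ P X T} = M.closure (T' ∪ P) := by
    intro g T' hr hgX hgT
    obtain ⟨h1, h2⟩ := hlsd E K M N κ s t P X T hcol hmx hst
    have hs' := (hrch E K M N κ s t P X T T' hcol hmx hst hr).1
    have hi : M.Indep {x | κ x = g ∧ x ∉ Ph M N κ P X T} :=
      (hcol.indM g).subset (fun x hx => hx.1)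
    apply cl_eq_of_card hi hs'.fr
    · rintro x ⟨hx1, hx2⟩
      exact h1 T' x hr (hx1 ▸ hgX) (hx1 ▸ hgT) hx2
    · have e1 : (T' ∪ P).ncard ≤ t + P.ncard := by
        refine (ncard_union_le _ _).trans ?_
        rw [hs'.card]
      have e2 : (κ ⁻¹' {g}).ncard ≤ (κ ⁻¹' {g} ∩ Ph M N κ P X T).ncard +
          {x | κ x = g ∧ x ∉ Ph M N κ P X T}.ncard := by
        refine le_trans (ncard_le_ncard ?_ (toFinite _)) (ncard_union_le _ _)
        intro x hx
        by_cases hxp : x ∈ Ph M N κ P X T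
        · exact Or.inl ⟨hx, hxp⟩
        · exact Or.inr ⟨hx, hxp⟩
      have e3 := h2 g
      have e4 := hcol.card g
      omega
  -- two elements outside the closure are independent
  have hI : ∀ g T' x1 x2, Rc M N κ P X T T' → g ∉ X → g ∉ κ '' T' → κ x1 = g → κ x2 = g →
      x1 ∉ M.closure (T' ∪ P) → x2 ∉ M.closure (T' ∪ P) → x1 ≠ x2 →
      x1 ∉ M.closure (insert x2 (T' ∪ P)) := by
    intro g T' x1 x2 hr hgX hgT h1 h2 hx1 hx2 hne hcon
    have hcl := hL g T' hr hgX hgT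
    have hlsd1 := (hlsd E K M N κ s t P X T hcol hmx hst).1
    have hp1 : x1 ∈ Ph M N κ P X T := by
      by_contra hnp
      exact hx1 (hlsd1 T' x1 hr (h1 ▸ hgX) (h1 ▸ hgT) hnp)
    have hp2 : x2 ∈ Ph M N κ P X T := by
      by_contra hnp
      exact hx2 (hlsd1 T' x2 hr (h2 ▸ hgX) (h2 ▸ hgT) hnp)
    set L := {x | κ x = g ∧ x ∉ Ph M N κ P X T} with hLdef
    have hi : M.Indep (insert x1 (insert x2 L)) := by
      apply (hcol.indM g).subset
      intro x hx
      rcases hx with rfl | rfl | hx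
      · exact h1
      · exact h2
      · exact hx.1
    have hn1 : x1 ∉ insert x2 L := by
      rintro (h | h)
      · exact hne h
      · exact h.2 hp1
    have hn2 : x1 ∉ M.closure (insert x2 L) := by
      have hi2 : M.Indep (insert x2 L) := hi.subset (subset_insert _ _)
      rw [hi2.notMem_closure_iff_of_notMem hn1 (hg x1)]
      exact hi
    apply hn2
    have e : M.closure (insert x2 L) = M.closure (insert x2 (T' ∪ P)) := by
      rw [← M.closure_insert_closure_eq_closure_insert x2 L, hcl,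
        M.closure_insert_closure_eq_closure_insert]
    rw [e]
    exact hcon
  -- the states after one move
  have hmove : ∀ T' x y, Rc M N κ P X T T' → y ∈ T' → κ x ∉ κ '' T' → κ x ∉ X →
      x ∉ M.closure (T' ∪ P) → x ∉ N.closure (T' \ {y}) →
      Rc M N κ P X T (insert x (T' \ {y})) ∧ κ y ∉ X ∧ κ y ∉ κ '' (insert x (T' \ {y})) := by
    intro T' x y hr hy hxT hxX hx1 hx2
    have hs' := (hrch E K M N κ s t P X T T' hcol hmx hst hr).1
    refine ⟨hr.tail ⟨x, y, hy, hxT, hxX, hx1, hx2, rfl⟩, hs'.col y hy, ?_⟩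
    rintro ⟨e, he, hey⟩
    rcases he with rfl | ⟨he, hne⟩
    · exact hxT ⟨y, hy, hey.symm⟩
    · exact hne (hs'.ri.inj he hy hey)
  -- (2)
  have hB : ∀ g T' x1 x2 y, Rc M N κ P X T T' → g ∉ X → g ∉ κ '' T' → κ x1 = g → κ x2 = g →
      x1 ∉ M.closure (T' ∪ P) → x2 ∉ M.closure (T' ∪ P) → x1 ≠ x2 → y ∈ T' →
      x1 ∉ N.closure (T' \ {y}) → x2 ∉ N.closure (T' \ {y}) → False := by
    intro g T' x1 x2 y hr hgX hgT h1 h2 hx1 hx2 hne hy hn1 hn2
    obtain ⟨r1, k1, u1⟩ := hmove T' x1 y hr hy (h1 ▸ hgT) (h1 ▸ hgX) hx1 hn1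
    obtain ⟨r2, k2, u2⟩ := hmove T' x2 y hr hy (h2 ▸ hgT) (h2 ▸ hgX) hx2 hn2
    have e1 := hL (κ y) _ r1 k1 u1
    have e2 := hL (κ y) _ r2 k2 u2
    have hmem : x1 ∈ M.closure (insert x2 (T' \ {y}) ∪ P) := by
      rw [← e2, e1]
      exact M.mem_closure_of_mem' (Or.inl (mem_insert _ _)) (hg x1)
    apply hI g T' x1 x2 hr hgX hgT h1 h2 hx1 hx2 hne
    refine M.closure_subset_closure ?_ hmem
    rintro x ((rfl | hx) | hx)
    · exact mem_insert _ _
    · exact mem_insert_of_mem _ (Or.inl hx.1)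
    · exact mem_insert_of_mem _ (Or.inr hx)
  -- every addable element removes something
  have hC : ∀ T' x, Rc M N κ P X T T' → κ x ∉ κ '' T' → x ∉ M.closure (T' ∪ P) →
      ∃ y ∈ T', x ∉ N.closure (T' \ {y}) := by
    intro T' x hr hxT hx
    have hs' := (hrch E K M N κ s t P X T T' hcol hmx hst hr).1
    by_contra hcon
    push Not at hcon
    have h1 := (hmvb E K M N κ s t P X T' hcol hmx hs').1 x hxT hx
    have h2 := hcir E N T' T' x hs'.ri.indN h1 (fun y hy => hcon y hy.1)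
    rw [sdiff_self] at h2
    have h3 : N.Indep {x} := (hcol.indN (κ x)).subset (by simp)
    have h4 := h3.notMem_closure_sdiff_of_mem (mem_singleton x)
    rw [sdiff_self] at h4
    exact h4 h2
  -- removable elements are not fixed
  have hR : ∀ T' x y, Rc M N κ P X T T' → y ∈ T' → κ x ∉ κ '' T' → κ x ∉ X →
      x ∉ M.closure (T' ∪ P) → x ∉ N.closure (T' \ {y}) → y ∉ Sta M N κ P X T := by
    intro T' x y hr hy hxT hxX hx1 hx2 hsta
    have := hsta _ (hmove T' x y hr hy hxT hxX hx1 hx2).1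
    rcases this with rfl | ⟨_, h⟩
    · exact hxT ⟨y, hy, rfl⟩
    · exact h rfl
  -- at least two elements of an unused class outside the closure
  have hA : ∀ g T', Rc M N κ P X T T' → g ∉ κ '' T' →
      2 ≤ {x | κ x = g ∧ x ∉ M.closure (T' ∪ P)}.ncard := by
    intro g T' hr hgT
    have hs' := (hrch E K M N κ s t P X T T' hcol hmx hst hr).1
    have e1 : (T' ∪ P).ncard ≤ t + P.ncard := by
      refine (ncard_union_le _ _).trans ?_
      rw [hs'.card]
    have e2 : (κ ⁻¹' {g}).ncard ≤ (κ ⁻¹' {g} ∩ M.closure (T' ∪ P)).ncard +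
        {x | κ x = g ∧ x ∉ M.closure (T' ∪ P)}.ncard := by
      refine le_trans (ncard_le_ncard ?_ (toFinite _)) (ncard_union_le _ _)
      intro x hx
      by_cases hxp : x ∈ M.closure (T' ∪ P)
      · exact Or.inl ⟨hx, hxp⟩
      · exact Or.inr ⟨hx, hxp⟩
    have e3 : (κ ⁻¹' {g} ∩ M.closure (T' ∪ P)).ncard ≤ (T' ∪ P).ncard := by
      have hi : M.Indep (κ ⁻¹' {g} ∩ M.closure (T' ∪ P)) :=
        (hcol.indM g).subset inter_subset_left
      have h1 := hi.encard_le_eRk_of_subset (X := M.closure (T' ∪ P)) inter_subset_right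
      rw [M.eRk_closure_eq] at h1
      have h2 := h1.trans (M.eRk_le_encard _)
      rwa [← (toFinite _).cast_ncard_eq, ← (toFinite (T' ∪ P)).cast_ncard_eq, Nat.cast_le] at h2
    have e4 := hcol.card g
    omega
  -- start
  have hr0 : Rc M N κ P X T T := Relation.ReflTransGen.refl
  obtain ⟨x1, x2, hx1, hx2, hne⟩ := (one_lt_ncard_iff (toFinite _)).1 (hA c T hr0 hcT)
  have hx1T : κ x1 ∉ κ '' T := hx1.1 ▸ hcT
  have hx2T : κ x2 ∉ κ '' T := hx2.1 ▸ hcT
  have hx1X : κ x1 ∉ X := hx1.1 ▸ hcX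
  have hx2X : κ x2 ∉ X := hx2.1 ▸ hcX
  obtain ⟨y1, hy1, hn1⟩ := hC T x1 hr0 hx1T hx1.2
  obtain ⟨y2, hy2, hn2⟩ := hC T x2 hr0 hx2T hx2.2
  have hyne : y1 ≠ y2 := by
    rintro rfl
    exact hB c T x1 x2 y1 hr0 hcX hcT hx1.1 hx2.1 hx1.2 hx2.2 hne hy1 hn1 hn2
  have hs1 := hR T x1 y1 hr0 hy1 hx1T hx1X hx1.2 hn1
  have hs2 := hR T x2 y2 hr0 hy2 hx2T hx2X hx2.2 hn2
  have hTS : ∀ y ∈ T \ Sta M N κ P X T, y = y1 ∨ y = y2 := by
    intro y hy
    by_contra hcon
    push Not at hcon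
    have hsub : ({y, y1, y2} : Set E) ⊆ T \ Sta M N κ P X T := by
      rintro w (rfl | rfl | rfl)
      · exact hy
      · exact ⟨hy1, hs1⟩
      · exact ⟨hy2, hs2⟩
    have h3 : ({y, y1, y2} : Set E).ncard = 3 := by
      rw [ncard_insert_of_notMem, ncard_pair hyne]
      rintro (h | h)
      · exact hcon.1 h
      · exact hcon.2 h
    have := ncard_le_ncard hsub (toFinite _)
    omega
  obtain ⟨r1, k1, u1⟩ := hmove T x1 y1 hr0 hy1 hx1T hx1X hx1.2 hn1
  obtain ⟨r2, k2, u2⟩ := hmove T x2 y2 hr0 hy2 hx2T hx2X hx2.2 hn2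
  set T1 := insert x1 (T \ {y1}) with hT1
  have hst1 := (hrch E K M N κ s t P X T T1 hcol hmx hst r1).1
  -- y1 is addable at T1
  have hx1nT : x1 ∉ T := fun h => hx1T ⟨x1, h, rfl⟩
  have hx1P : x1 ∉ T ∪ P := fun h => hx1.2 (M.mem_closure_of_mem' h (hg x1))
  have hy1P : y1 ∉ P := fun h => (disjoint_left.1 hst.dj hy1 h)
  have hbig : M.Indep (insert x1 (T ∪ P)) := by
    have := (hst.fr.notMem_closure_iff_of_notMem hx1P (hg x1)).1 hx1.2
    exact this
  have hx1y1 : x1 ≠ y1 := fun h => hx1nT (h ▸ hy1)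
  have hy1T1 : y1 ∉ T1 ∪ P := by
    rintro ((h | h) | h)
    · exact hx1y1 h.symm
    · exact h.2 rfl
    · exact hy1P h
  have hy1cl : y1 ∉ M.closure (T1 ∪ P) := by
    rw [hst1.fr.notMem_closure_iff_of_notMem hy1T1 (hg y1)]
    apply hbig.subset
    rintro w (rfl | (rfl | hw) | hw)
    · exact mem_insert_of_mem _ (Or.inl hy1)
    · exact mem_insert _ _
    · exact mem_insert_of_mem _ (Or.inl hw.1)
    · exact mem_insert_of_mem _ (Or.inr hw)
  have hT1x : T1 \ {x1} = T \ {y1} := by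
    ext w
    constructor
    · rintro ⟨rfl | hw, hw2⟩
      · exact absurd rfl hw2
      · exact hw
    · rintro hw
      refine ⟨Or.inr hw, ?_⟩
      rintro rfl
      exact hx1nT hw.1
  have hy1N : y1 ∉ N.closure (T1 \ {x1}) := by
    rw [hT1x]
    exact hst.ri.indN.notMem_closure_sdiff_of_mem hy1
  obtain ⟨u, hu, huy⟩ : ∃ u, u ∈ {x | κ x = κ y1 ∧ x ∉ M.closure (T1 ∪ P)} ∧ u ≠ y1 := by
    obtain ⟨a, b, ha, hb, hab⟩ := (one_lt_ncard_iff (toFinite _)).1 (hA (κ y1) T1 r1 u1)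
    by_cases h : a = y1
    · exact ⟨b, hb, fun h' => hab (h.trans h'.symm)⟩
    · exact ⟨a, ha, h⟩
  have huT : κ u ∉ κ '' T1 := hu.1 ▸ u1
  have huX : κ u ∉ X := hu.1 ▸ k1
  obtain ⟨y', hy', hn'⟩ := hC T1 u r1 huT hu.2
  have hy'x : y' ≠ x1 := by
    rintro rfl
    exact hB (κ y1) T1 y1 u y' r1 k1 u1 rfl hu.1 hy1cl hu.2 huy.symm hy' hy1N hn'
  have hy's := hR T1 u y' r1 hy' huT huX hu.2 hn'
  have hy'2 : y' = y2 := by
    have hmem : y' ∈ T \ {y1} := by
      rcases hy' with h | h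
      · exact absurd h hy'x
      · exact h
    rcases hTS y' ⟨hmem.1, hy's⟩ with h | h
    · exact absurd h hmem.2
    · exact h
  subst hy'2
  obtain ⟨r12, k12, u12⟩ := hmove T1 u y' r1 hy' huT huX hu.2 hn'
  have e1 := hL (κ y') _ r12 k12 u12
  have e2 := hL (κ y') _ r2 k2 u2
  have hmem : x1 ∈ M.closure (insert x2 (T \ {y'}) ∪ P) := by
    rw [← e2, e1]
    refine M.mem_closure_of_mem' (Or.inl (mem_insert_of_mem _ ⟨mem_insert _ _, ?_⟩)) (hg x1)
    exact fun h => hy'x h.symm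
  apply hI c T x1 x2 hr0 hcX hcT hx1.1 hx2.1 hx1.2 hx2.2 hne
  refine M.closure_subset_closure ?_ hmem
  rintro x ((rfl | hx) | hx)
  · exact mem_insert _ _
  · exact mem_insert_of_mem _ (Or.inl hx.1)
  · exact mem_insert_of_mem _ (Or.inr hx)

end Pool.Agent.RCM.H35
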