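import Pool.Agent.RCM.Stmts2
import Pool.Agent.Helper53_RCM.MVB
import Pool.Agent.Helper10_RCM.CIR
import Pool.Agent.Helper77_RCM.MON
import Pool.Agent.Helper80_RCM.RCH
import Pool.Agent.Helper70_RCM.PHI
import Pool.Agent.Helper17_RCM.UNC
import Pool.Agent.Helper12_RCM.PLC
import Pool.Agent.Helper12_RCM.KIL
import Pool.Agent.Helper12_RCM.ONE
import Pool.Agent.Helper12_RCM.ASM
import Pool.Agent.Helper94_RCM.LSD
import Pool.Agent.Helper2_RCM.FRZ
import Pool.Agent.Helper41_RCM.RMV
import Pool.Agent.Helper1_RCM.FRJ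
import Pool.Agent.Helper1_RCM.TWO
import Pool.Agent.Helper35_RCM.EXZ
import Pool.Agent.Helper16_RCM.LBA
import Pool.Agent.Helper31_RCM.ADD
import Pool.Agent.Helper13_RCM.MUL
import Pool.Agent.Helper86_RCM.BAR
import Pool.Agent.Helper69_RCM.BCL

/-!
# Squad RCM: the rows for all pairs of matroids, without hypotheses (helper35)
-/

set_option autoImplicit false

namespace Pool.Agent.RCM.H35

open Set

universe u

theorem mvb' : MvbStmt.{u} := H53.mvb
theorem cir' : CirStmt.{u} := H10.cir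
theorem mon' : MonStmt.{u} := H77.mon
theorem rch' : RchStmt.{u} := H80.rch mvb'
theorem phi' : PhiStmt.{u} := H70.phi mvb' rch' cir'
theorem unc' : UncStmt.{u} := H17.unc rch'
theorem plc' : PlcStmt.{u} := H12.plc rch'
theorem lsd' : LsdStmt.{u} := H94.lsd phi' rch'
theorem frz' : FrzStmt.{u} := H2.frz rch'
theorem rmv' : RmvStmt.{u} := H41.rmv mvb' cir'
theorem kil' : KilStmt.{u} := H12.kil lsd'
theorem frj' : FrjStmt.{u} := H1.frj unc' frz'
theorem one' : OneStmt.{u} := H12.one rmv' kil' rch'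
theorem exz' : ExzStmt.{u} := exz lsd' rmv' mvb' rch' cir'
theorem add' : AddStmt.{u} := H31.add unc' lsd' mon'
theorem mul' : MulStmt.{u} := H13.mul add'
theorem lba' : LbaStmt.{u} := H16.lba frj' one' exz' plc' rch' rmv'
theorem two' : TwoStmt.{u} := H1.two mvb' cir' phi' rch'
theorem bcl' : BclStmt.{u} := H69.bcl unc' frz' plc' rch' phi' lsd' mon' H86.bar
theorem asm' : AsmStmt.{u} := H12.asm two' mul'

end Pool.Agent.RCM.H35
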