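import Pool.Agent.RCM.Stmts2

/-!
# Squad RCM: from `FiqStmt` to the hand-in (helper35)
-/

set_option autoImplicit false

namespace Pool.Agent.RCM.H35

open Set

universe u

/-- admissible values -/
def Adm {α : Type u} (M : Matroid α) (ε : ℝ) (d₀ s d f : ℕ) : Prop :=
  2 * f ≤ 3 * d ∨
    ∃ (R : Type u) (r : α → R), Finite R ∧ (∀ I : Set α, M.Indep I ↔ Set.InjOn r I) ∧
      (4 * f ≤ d ^ 2 + 3 ∨ (d₀ ≤ d ∧ (f : ℝ) ≤ (1 / 2 - ε) * (d : ℝ) ^ 2) ∨
        (Nat.card R = s ∧ f ≤ d * (d - 1) / 2 + min d 4))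

theorem adm_bnd {α : Type u} (M : Matroid α) {m : ℕ} (S : Fin m → Finset α)
    (hS : ∀ i, M.Indep (S i : Set α)) {ε : ℝ} {d₀ s d f : ℕ} (h : Adm M ε d₀ s d f) :
    ∃ F : ℕ → ℕ, Bnd M S s ε d₀ F ∧ f ≤ F d := by
  rcases h with h | ⟨R, r, hR, hM, h⟩
  · exact ⟨_, Bnd.any, by show f ≤ 3 * d / 2; omega⟩
  · have hP : Part M S R r := ⟨fun i => (hM _).1 (hS i), fun I _ hI => (hM I).2 hI⟩
    rcases h with h | ⟨h1, h2⟩ | ⟨h1, h2⟩
    · refine ⟨_, Bnd.par R hR r hP, ?_⟩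
      show f ≤ max (3 * d / 2) ((d ^ 2 + 3) / 4)
      exact le_max_of_le_right (by omega)
    · refine ⟨_, Bnd.pas R hR r hP, ?_⟩
      show f ≤ if d < d₀ then 0 else ⌊(1 / 2 - ε) * (d : ℝ) ^ 2⌋₊
      rw [if_neg (by omega)]
      exact Nat.le_floor h2
    · exact ⟨_, Bnd.arr R hR r hP h1, h2⟩

theorem conv (fiq : FiqStmt.{u}) (ε : ℝ) (hε : 0 < ε) :
    ∃ d₀ : ℕ, ∀ (α : Type u) (M N : Matroid α) (m s d f g : ℕ) (S : Fin m → Finset α),
      (∀ i, M.Indep (S i : Set α) ∧ N.Indep (S i : Set α) ∧ s ≤ (S i).card) →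
      Adm M ε d₀ s d f → Adm N ε d₀ s d g →
      (s < m + d ∧ s < d + 3 * d / 2) ∨ (s + 2 ≤ m + d ∧ s < f + g + (m + d - s - 1) * d) →
      ∃ (R : Finset α) (φ : {x // x ∈ R} → Fin m), s < R.card + d ∧ Function.Injective φ ∧
        (∀ x : {x // x ∈ R}, (x : α) ∈ S (φ x)) ∧ M.Indep (R : Set α) ∧ N.Indep (R : Set α) := by
  classical
  obtain ⟨d₀, hd₀⟩ := fiq ε hε
  refine ⟨d₀, fun α M N m s d f g S hS hf hg hc => ?_⟩
  by_cases hsd : s < d
  · exact ⟨∅, fun x => absurd x.2 (Finset.notMem_empty _), by simpa using hsd,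
      fun x => absurd x.2 (Finset.notMem_empty _), fun x => absurd x.2 (Finset.notMem_empty _),
      by simp, by simp⟩
  have hd : 0 < d := by
    rcases Nat.eq_zero_or_pos d with h0 | h0
    · exfalso
      subst h0
      rcases hc with hc | ⟨hc1, hc⟩
      · omega
      · have key : ∀ (M : Matroid α) (f : ℕ), Adm M ε d₀ s 0 f → f = 0 := by
          intro M f h
          rcases h with h | ⟨R, r, -, -, h⟩
          · omega
          · rcases h with h | ⟨-, h⟩ | ⟨-, h⟩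
            · omega
            · have : (f : ℝ) ≤ 0 := by simpa using h
              have h2 : (f : ℝ) ≤ ((0 : ℕ) : ℝ) := by simpa using this
              exact Nat.le_zero.1 (by exact_mod_cast h2)
            · simpa using h
        rw [key M f hf, key N g hg] at hc
        omega
    · exact h0
  obtain ⟨F, hF, hfF⟩ := adm_bnd M S (fun i => (hS i).1) hf
  obtain ⟨G, hG, hgG⟩ := adm_bnd N S (fun i => (hS i).2.1) hg
  have hsd' : s - (s - d) = d := by omega
  have main : ∃ (J : Finset (Fin m)) (g : Fin m → α), s - d < J.card ∧ (∀ i ∈ J, g i ∈ S i) ∧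
      InjOn g (J : Set (Fin m)) ∧ M.Indep (g '' (J : Set (Fin m))) ∧
      N.Indep (g '' (J : Set (Fin m))) := by
    rcases hc with ⟨hc1, hc2⟩ | ⟨hc1, hc2⟩
    · refine hd₀ α M N m s (s - d) S (fun z => 3 * z / 2) (fun z => 3 * z / 2)
        (fun i => (hS i).1) (fun i => (hS i).2.1) (fun i => (hS i).2.2) Bnd.any Bnd.any
        (by omega) (Or.inl ⟨by omega, Or.inl ?_⟩)
      show s - d < 3 * (s - (s - d)) / 2
      rw [hsd']
      omega
    · refine hd₀ α M N m s (s - d) S F G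
        (fun i => (hS i).1) (fun i => (hS i).2.1) (fun i => (hS i).2.2) hF hG
        (by omega) (Or.inr ⟨by omega, ?_⟩)
      rw [hsd']
      obtain ⟨j, hj⟩ : ∃ j, m + d = s + 2 + j := ⟨m + d - (s + 2), by omega⟩
      have e1 : m + d - s - 1 = j + 1 := by omega
      have e2 : m - (s - d) - 2 = j := by omega
      rw [e1, add_mul] at hc2
      rw [e2]
      omega
  obtain ⟨J, q, hJ, hqS, hqi, hM, hN⟩ := main
  have hex : ∀ x : {x // x ∈ J.image q}, ∃ i ∈ J, q i = x := fun x => Finset.mem_image.1 x.2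
  choose φ hφ1 hφ2 using hex
  refine ⟨J.image q, φ, ?_, ?_, ?_, ?_, ?_⟩
  · rw [Finset.card_image_of_injOn hqi]
    omega
  · intro x y hxy
    apply Subtype.ext
    rw [← hφ2 x, ← hφ2 y, hxy]
  · intro x
    have := hqS _ (hφ1 x)
    rwa [hφ2 x] at this
  · rw [Finset.coe_image]
    exact hM
  · rw [Finset.coe_image]
    exact hN

end Pool.Agent.RCM.H35
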