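import Pool.Agent.Helper35_RCM.Base
import Pool.Agent.Helper35_RCM.Conv
import Pool.Agent.Helper21_RCM.TRQ
import Pool.Agent.Helper20_RCM.TRA
import Pool.Agent.Helper6_RCM.FIQ

/-!
# Squad RCM: assembly without hypotheses (helper35)
-/

set_option autoImplicit false

namespace Pool.Agent.RCM.H35

open Set

universe u

theorem fiq' : FiqStmt.{u} := H6.fiq asm' lba' bcl' H21.trq H20.tra

theorem main (ε : ℝ) (hε : 0 < ε) :
    ∃ d₀ : ℕ, ∀ (α : Type u) (M N : Matroid α) (m s d f g : ℕ) (S : Fin m → Finset α),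
      (∀ i, M.Indep (S i : Set α) ∧ N.Indep (S i : Set α) ∧ s ≤ (S i).card) →
      Adm M ε d₀ s d f → Adm N ε d₀ s d g →
      (s < m + d ∧ s < d + 3 * d / 2) ∨ (s + 2 ≤ m + d ∧ s < f + g + (m + d - s - 1) * d) →
      ∃ (R : Finset α) (φ : {x // x ∈ R} → Fin m), s < R.card + d ∧ Function.Injective φ ∧
        (∀ x : {x // x ∈ R}, (x : α) ∈ S (φ x)) ∧ M.Indep (R : Set α) ∧ N.Indep (R : Set α) :=
  conv fiq' ε hε

end Pool.Agent.RCM.H35
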