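import Pool.Agent.Helper35_RCM.Tra

/-!
# The former hand-in FullRainbow as a special case of RecycledClosure (helper35)
-/

set_option autoImplicit false

namespace Pool.Agent.RCM.H35T

theorem fullRainbow.{u, v} (ε : ℝ) (hε : 0 < ε) :
    ∃ k₀ : ℕ, ∀ (α : Type u) (ρ : Type v) (M N : Matroid α) (adj : α → ρ → Prop),
      (∀ X : Finset α, M.Indep (X : Set α) ↔
        ∃ f : {x // x ∈ X} → ρ, Function.Injective f ∧ ∀ x : {x // x ∈ X}, adj (x : α) (f x)) →
      ∀ (n a k : ℕ) (S : Fin (n + a) → Finset α),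
        (∀ i, M.Indep (S i : Set α) ∧ N.Indep (S i : Set α)) →
        (∀ i, n + k ≤ (S i).card) →
        (4 * n < 4 * a * (k + 1) + (k + 1) ^ 2 + 4 ∨
          (k₀ ≤ k ∧ (n : ℝ) ≤ a * (k + 1) + (1 / 2 - ε) * (k + 1) ^ 2) ∨
          (Nat.card ρ = n + k ∧ n ≤ a * (k + 1) + k * (k + 1) / 2 + min (k + 1) 4)) →
        ∃ (R : Finset α) (φ : {x // x ∈ R} → Fin (n + a)), n ≤ R.card ∧
          Function.Injective φ ∧ (∀ x : {x // x ∈ R}, (x : α) ∈ S (φ x)) ∧
          M.Indep (R : Set α) ∧ N.Indep (R : Set α) := by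
  obtain ⟨d₀, hd₀⟩ := crit.{u, v, 0} ε hε 0
  refine ⟨d₀, ?_⟩
  intro α ρ M N adj hM n a k S hS hk hcond
  -- the value of `f`
  have key : ∀ f : ℕ, AdmT.{u, v} M ε d₀ (n + k) (k + 1) f → n ≤ a * (k + 1) + f →
      ∃ (R : Finset α) (φ : {x // x ∈ R} → Fin (n + a)), n ≤ R.card ∧
          Function.Injective φ ∧ (∀ x : {x // x ∈ R}, (x : α) ∈ S (φ x)) ∧
          M.Indep (R : Set α) ∧ N.Indep (R : Set α) := by
    intro f hf hn
    obtain ⟨R, φ, h1, h2⟩ := hd₀ α M N (n + a) (n + k) (k + 1) f (3 * (k + 1) / 2) S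
      (fun i => ⟨(hS i).1, (hS i).2, hk i⟩) hf (Or.inl (by omega)) (by
        rcases Nat.eq_zero_or_pos a with h0 | h0
        · subst h0
          exact Or.inl ⟨by omega, by omega⟩
        · refine Or.inr ⟨by omega, ?_⟩
          have e1 : n + a + (k + 1) - (n + k) - 1 = a := by omega
          rw [e1]
          omega)
    exact ⟨R, φ, by omega, h2⟩
  rcases hcond with h | ⟨h1, h2⟩ | ⟨h1, h2⟩
  · refine key (((k + 1) ^ 2 + 3) / 4) (Or.inr ⟨ρ, adj, hM, Or.inl (by omega)⟩) ?_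
    have h3 : 4 * a * (k + 1) = 4 * (a * (k + 1)) := by ring
    rw [h3] at h
    omega
  · rcases le_or_gt 0 ((1 / 2 - ε) * ((k + 1 : ℕ) : ℝ) ^ 2) with h | h
    · refine key ⌊(1 / 2 - ε) * ((k + 1 : ℕ) : ℝ) ^ 2⌋₊
        (Or.inr ⟨ρ, adj, hM, Or.inr (Or.inl ⟨by omega, Nat.floor_le h⟩)⟩) ?_
      by_cases h3 : n ≤ a * (k + 1)
      · omega
      · have h4 : n - a * (k + 1) ≤ ⌊(1 / 2 - ε) * ((k + 1 : ℕ) : ℝ) ^ 2⌋₊ := by
          apply Nat.le_floor
          have h5 : n - a * (k + 1) + a * (k + 1) = n := by omega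
          have h6 : ((n - a * (k + 1) : ℕ) : ℝ) + (a : ℝ) * ((k : ℝ) + 1) = n := by
            exact_mod_cast h5
          push_cast
          linarith
        omega
    · refine key 0 (Or.inl (by omega)) ?_
      have h3 : (n : ℝ) ≤ ((a * (k + 1) : ℕ) : ℝ) := by
        push_cast at h ⊢
        linarith
      have h4 : n ≤ a * (k + 1) := by exact_mod_cast h3
      omega
  · refine key (k * (k + 1) / 2 + min (k + 1) 4)
      (Or.inr ⟨ρ, adj, hM, Or.inr (Or.inr ⟨h1, ?_⟩)⟩) (by omega)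
    have h3 : (k + 1) * (k + 1 - 1) = k * (k + 1) := by
      rw [Nat.add_sub_cancel]
      ring
    rw [h3]

end Pool.Agent.RCM.H35T
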