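import Pool.Agent.Helper35_RCM.All

/-!
# The former hand-in RecycledExchange as a special case of RecycledClosure (helper35)
-/

set_option autoImplicit false

namespace Pool.Agent.RCM.H35

open Set

/-- partition matroid -/
noncomputable def pm {α R : Type} (r : α → R) : Matroid α := (Matroid.freeOn (univ : Set R)).comap r

theorem pm_indep {α R : Type} (r : α → R) (I : Set α) : (pm r).Indep I ↔ InjOn r I := by
  rw [pm, Matroid.comap_indep_iff, Matroid.freeOn_indep_iff]
  exact ⟨fun h => h.2, fun h => ⟨subset_univ _, h⟩⟩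

theorem recycledExchange (m n d : ℕ) (hmd : n + 2 ≤ m + d)
    (h : n + 2 * d + d * n < 2 * d ^ 2 + 2 * min d 4 + d * m)
    (f : Fin m → Equiv.Perm (Fin n)) :
    ∃ T : Finset (Fin m × Fin n), n < T.card + d ∧
      Set.InjOn (fun e : Fin m × Fin n => e.1) (T : Set (Fin m × Fin n)) ∧
      Set.InjOn (fun e : Fin m × Fin n => e.2) (T : Set (Fin m × Fin n)) ∧
      Set.InjOn (fun e : Fin m × Fin n => f e.1 e.2) (T : Set (Fin m × Fin n)) := by
  classical
  obtain ⟨d₀, hd₀⟩ := main.{0} 1 one_pos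
  have hadm : ∀ r : Fin n × Fin n → Fin n,
      Adm (pm r) 1 d₀ n d (d * (d - 1) / 2 + min d 4) := fun r =>
    Or.inr ⟨Fin n, r, inferInstance, pm_indep r, Or.inr (Or.inr ⟨Nat.card_fin n, le_refl _⟩)⟩
  obtain ⟨R, φ, h1, h2, h3, h4, h5⟩ := hd₀ (Fin n × Fin n) (pm Prod.fst) (pm Prod.snd) m n d _ _
    (fun i => Finset.univ.image (fun r => (r, f i r)))
    (fun i => ⟨by
      rw [pm_indep]
      rintro ⟨a, b⟩ ha ⟨a', b'⟩ ha' hab
      simp only [Finset.coe_image, Finset.coe_univ, image_univ, mem_range, Prod.mk.injEq] at ha ha'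
      obtain ⟨x, rfl, rfl⟩ := ha
      obtain ⟨y, rfl, rfl⟩ := ha'
      have hab' : x = y := hab
      rw [hab'], by
      rw [pm_indep]
      rintro ⟨a, b⟩ ha ⟨a', b'⟩ ha' hab
      simp only [Finset.coe_image, Finset.coe_univ, image_univ, mem_range, Prod.mk.injEq] at ha ha'
      obtain ⟨x, rfl, rfl⟩ := ha
      obtain ⟨y, rfl, rfl⟩ := ha'
      have hab' : f i x = f i y := hab
      rw [(f i).injective hab'], by
      rw [Finset.card_image_of_injective _ (fun a b hab => (Prod.mk.inj hab).1), Finset.card_univ,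
        Fintype.card_fin]⟩)
    (hadm _) (hadm _) (Or.inr ⟨hmd, by
      obtain ⟨q, hq⟩ : ∃ q, m + d = n + 2 + q := ⟨m + d - (n + 2), by omega⟩
      have e1 : m + d - n - 1 = q + 1 := by omega
      rw [e1]
      obtain ⟨c, hc⟩ : ∃ c, d * (d - 1) = 2 * c := by
        rcases Nat.eq_zero_or_pos d with h0 | h0
        · exact ⟨0, by rw [h0]⟩
        · have h6 : Even ((d - 1) * (d - 1 + 1)) := Nat.even_mul_succ_self (d - 1)
          obtain ⟨c, hc⟩ := h6
          refine ⟨c, ?_⟩
          rw [Nat.sub_add_cancel h0] at hc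
          rw [mul_comm, hc]
          omega
      have hc2 : d * (d - 1) / 2 = c := by omega
      rw [hc2]
      have h7 : d * d = 2 * c + d := by
        rcases Nat.eq_zero_or_pos d with h0 | h0
        · rw [h0] at hc ⊢; omega
        · obtain ⟨e, rfl⟩ : ∃ e, d = e + 1 := ⟨d - 1, by omega⟩
          have : (e + 1) * (e + 1 - 1) = 2 * c := hc
          rw [Nat.add_sub_cancel] at this
          nlinarith
      have h8 : d * m + d * d = d * n + 2 * d + d * q := by
        have : d * (m + d) = d * (n + 2 + q) := by rw [hq]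
        nlinarith
      have h9 : d ^ 2 = d * d := sq d
      rw [h9] at h
      have h10 : (q + 1) * d = d * q + d := by ring
      rw [h10]
      omega⟩)
  have hr : InjOn Prod.fst (R : Set (Fin n × Fin n)) := (pm_indep _ _).1 h4
  have hc : InjOn Prod.snd (R : Set (Fin n × Fin n)) := (pm_indep _ _).1 h5
  have hf : ∀ x : {x // x ∈ R}, f (φ x) (x : Fin n × Fin n).1 = (x : Fin n × Fin n).2 := by
    intro x
    have := h3 x
    rw [Finset.mem_image] at this
    obtain ⟨r, -, hr⟩ := this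
    rw [← hr]
  refine ⟨Finset.univ.image (fun x : {x // x ∈ R} => (φ x, (x : Fin n × Fin n).1)), ?_, ?_, ?_, ?_⟩
  · rw [Finset.card_image_of_injective _ (fun a b hab => h2 (Prod.mk.inj hab).1), Finset.card_univ,
      Fintype.card_coe]
    exact h1
  · rintro ⟨a, b⟩ ha ⟨a', b'⟩ ha' hab
    simp only [Finset.coe_image, Finset.coe_univ, image_univ, mem_range, Prod.mk.injEq] at ha ha'
    obtain ⟨x, rfl, rfl⟩ := ha
    obtain ⟨y, rfl, rfl⟩ := ha'
    have hab' : φ x = φ y := hab
    rw [h2 hab']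
  · rintro ⟨a, b⟩ ha ⟨a', b'⟩ ha' hab
    simp only [Finset.coe_image, Finset.coe_univ, image_univ, mem_range, Prod.mk.injEq] at ha ha'
    obtain ⟨x, rfl, rfl⟩ := ha
    obtain ⟨y, rfl, rfl⟩ := ha'
    have hab' : (x : Fin n × Fin n).1 = (y : Fin n × Fin n).1 := hab
    have : x = y := Subtype.ext (hr x.2 y.2 hab')
    rw [this]
  · rintro ⟨a, b⟩ ha ⟨a', b'⟩ ha' hab
    simp only [Finset.coe_image, Finset.coe_univ, image_univ, mem_range, Prod.mk.injEq] at ha ha'
    obtain ⟨x, rfl, rfl⟩ := ha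
    obtain ⟨y, rfl, rfl⟩ := ha'
    have hab' : f (φ x) (x : Fin n × Fin n).1 = f (φ y) (y : Fin n × Fin n).1 := hab
    rw [hf, hf] at hab'
    have : x = y := Subtype.ext (hc x.2 y.2 hab')
    rw [this]

end Pool.Agent.RCM.H35
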