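import Pool.Agent.Helper6_RCA.Asm

/-!
# Squads RCM, RCA: the criterion with transversal matroids on one side (helper35)
-/

set_option autoImplicit false

namespace Pool.Agent.RCM.H35T

open Set Pool.Agent.RCM Pool.Agent.RCM.H6R

universe u v w

/-- lower bounds for the partition matroid of a map to any type -/
theorem lb_par (ε : ℝ) (d₀ : ℕ)
    (tra : ∀ (E : Type u) (K : Type) [Finite E] [Finite K]
      (M N : Matroid E) (κ : E → K) (s : ℕ) (R : Type u) [Finite R] (r : E → R), Col M N κ s →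
      (∀ I, M.Indep I ↔ InjOn r I) →
      LB M N κ s (fun z => if z < d₀ then 0 else ⌊(1 / 2 - ε) * (z : ℝ) ^ 2⌋₊))
    {E : Type u} {K : Type} [Finite E] [Finite K] {ρ : Type v} (q : E → ρ) (s d f : ℕ)
    (h : 4 * f ≤ d ^ 2 + 3 ∨ (d₀ ≤ d ∧ (f : ℝ) ≤ (1 / 2 - ε) * (d : ℝ) ^ 2) ∨
        (Nat.card ρ = s ∧ f ≤ d * (d - 1) / 2 + min d 4)) (hs : 0 < s) (M : Matroid E)
    (hM : ∀ I, M.Indep I ↔ InjOn q I) (κ : E → K) :
    ∃ F : ℕ → ℕ, (∀ N : Matroid E, Col M N κ s → LB M N κ s F) ∧ Monotone F ∧ f ≤ F d := by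
  classical
  have hfr : Finite (range q) := Set.finite_range q
  obtain ⟨r, hr⟩ : ∃ r : E → ULift.{u} (Fin (Nat.card (range q))),
      ∀ a b, r a = r b ↔ q a = q b := by
    refine ⟨fun e => ULift.up (Finite.equivFin (range q) ⟨q e, mem_range_self e⟩), ?_⟩
    intro a b
    rw [ULift.up_inj, (Finite.equivFin (range q)).injective.eq_iff, Subtype.mk_eq_mk]
  have hI : ∀ I, M.Indep I ↔ InjOn r I := by
    intro I
    rw [hM]
    constructor
    · intro h a ha b hb hab
      exact h ha hb ((hr a b).1 hab)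
    · intro h a ha b hb hab
      exact h ha hb ((hr a b).2 hab)
  rcases h with h | ⟨h1, h2⟩ | ⟨h1, h2⟩
  · refine ⟨fun z => (z ^ 2 + 3) / 4, fun N hc => H21.trq _ _ _ _ _ _ _ r hc hI, ?_, ?_⟩
    · intro x y hxy
      exact Nat.div_le_div_right (Nat.add_le_add_right (Nat.pow_le_pow_left hxy 2) 3)
    · show f ≤ (d ^ 2 + 3) / 4
      omega
  · refine ⟨_, fun N hc => tra _ _ _ _ _ _ _ r hc hI, ?_, ?_⟩
    · intro x y hxy
      show (if x < d₀ then 0 else ⌊(1 / 2 - ε) * (x : ℝ) ^ 2⌋₊) ≤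
        (if y < d₀ then 0 else ⌊(1 / 2 - ε) * (y : ℝ) ^ 2⌋₊)
      by_cases hx : x < d₀
      · rw [if_pos hx]
        exact Nat.zero_le _
      · rw [if_neg hx, if_neg (by omega)]
        rcases le_or_gt 0 (1 / 2 - ε) with he | he
        · refine Nat.floor_le_floor (mul_le_mul_of_nonneg_left ?_ he)
          have h1 : (x : ℝ) ≤ (y : ℝ) := by exact_mod_cast hxy
          exact pow_le_pow_left₀ (Nat.cast_nonneg x) h1 2
        · have h1 : (1 / 2 - ε) * (x : ℝ) ^ 2 ≤ 0 :=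
            mul_nonpos_of_nonpos_of_nonneg he.le (sq_nonneg _)
          rw [Nat.floor_of_nonpos h1]
          exact Nat.zero_le _
    · show f ≤ (if d < d₀ then 0 else ⌊(1 / 2 - ε) * (d : ℝ) ^ 2⌋₊)
      rw [if_neg (by omega)]
      exact Nat.le_floor h2
  · have hfin : Finite ρ := by
      refine Nat.finite_of_card_ne_zero ?_
      omega
    obtain ⟨r', hr'⟩ : ∃ r' : E → ULift.{u} (Fin s), ∀ a b, r' a = r' b ↔ q a = q b := by
      refine ⟨fun e => ULift.up (Finite.equivFinOfCardEq h1 (q e)), ?_⟩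
      intro a b
      rw [ULift.up_inj, (Finite.equivFinOfCardEq h1).injective.eq_iff]
    have hI' : ∀ I, M.Indep I ↔ InjOn r' I := by
      intro I
      rw [hM]
      constructor
      · intro h a ha b hb hab
        exact h ha hb ((hr' a b).1 hab)
      · intro h a ha b hb hab
        exact h ha hb ((hr' a b).2 hab)
    refine ⟨fun z => z * (z - 1) / 2 + min z 4, fun N hc => H35.bcl' _ _ _ _ _ _ _ r' hc hI' ?_,
      ?_, h2⟩
    · rw [Fintype.card_ulift, Fintype.card_fin]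
    · intro x y hxy
      refine Nat.add_le_add ?_ (by omega)
      exact Nat.div_le_div_right (Nat.mul_le_mul hxy (by omega))

/-- admissible values, `M` arbitrary or transversal -/
def AdmT {α : Type u} (M : Matroid α) (ε : ℝ) (d₀ s d f : ℕ) : Prop :=
  2 * f ≤ 3 * d ∨
    ∃ (ρ : Type v) (adj : α → ρ → Prop),
      (∀ X : Finset α, M.Indep (X : Set α) ↔
        ∃ q : {x // x ∈ X} → ρ, Function.Injective q ∧ ∀ x : {x // x ∈ X}, adj (x : α) (q x)) ∧
      (4 * f ≤ d ^ 2 + 3 ∨ (d₀ ≤ d ∧ (f : ℝ) ≤ (1 / 2 - ε) * (d : ℝ) ^ 2) ∨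
        (Nat.card ρ = s ∧ f ≤ d * (d - 1) / 2 + min d 4))

/-- admissible values, `N` arbitrary or a partition matroid -/
def AdmP {α : Type u} (N : Matroid α) (ε : ℝ) (C d₀ s d g : ℕ) : Prop :=
  2 * g ≤ 3 * d ∨ (d₀ ≤ d ∧ g ≤ C * d) ∨
    ∃ (ρ : Type w) (r : α → ρ), (∀ X : Finset α, N.Indep (X : Set α) ↔ Set.InjOn r X) ∧
      (4 * g ≤ d ^ 2 + 3 ∨ (d₀ ≤ d ∧ (g : ℝ) ≤ (1 / 2 - ε) * (d : ℝ) ^ 2) ∨
        (Nat.card ρ = s ∧ g ≤ d * (d - 1) / 2 + min d 4))

section

variable {α : Type u} {m : ℕ} (S : Fin m → Finset α)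

theorem lb_any {E : Type u} {K : Type} [Finite E] [Finite K] (d f : ℕ) (h : 2 * f ≤ 3 * d) (s : ℕ)
    (M : Matroid E) (κ : E → K) :
    ∃ F : ℕ → ℕ, (∀ N : Matroid E, Col M N κ s → LB M N κ s F) ∧ Monotone F ∧ f ≤ F d := by
  refine ⟨fun z => 3 * z / 2, fun N hc => H35.lba' _ _ _ _ _ _ hc, ?_, ?_⟩
  · intro x y hxy
    show 3 * x / 2 ≤ 3 * y / 2
    omega
  · show f ≤ 3 * d / 2
    omega

theorem sideT (ε : ℝ) (d₀ : ℕ)
    (tra : ∀ (E : Type u) (K : Type) [Finite E] [Finite K]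
      (M N : Matroid E) (κ : E → K) (s : ℕ) (R : Type u) [Finite R] (r : E → R), Col M N κ s →
      (∀ I, M.Indep I ↔ InjOn r I) →
      LB M N κ s (fun z => if z < d₀ then 0 else ⌊(1 / 2 - ε) * (z : ℝ) ^ 2⌋₊))
    (M : Matroid α) (s d f : ℕ) (hs : 0 < s) (hM : ∀ i, M.Indep (S i : Set α))
    (h : AdmT.{u, v} M ε d₀ s d f) :
    ∃ M' : Matroid (EE S), (∀ c, M'.Indep ((Sigma.fst : EE S → Fin m) ⁻¹' {c})) ∧
      (∀ T, M'.Indep T → InjOn (vv S) T → M.Indep (vv S '' T)) ∧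
      ∃ F : ℕ → ℕ, (∀ N' : Matroid (EE S), Col M' N' (Sigma.fst : EE S → Fin m) s →
        LB M' N' (Sigma.fst : EE S → Fin m) s F) ∧ Monotone F ∧ f ≤ F d := by
  classical
  have hfin : Finite (EE S) := inferInstance
  rcases h with h | ⟨ρ, adj, hadj, h⟩
  · refine ⟨M.comap (vv S), ?_, ?_, lb_any d f h s _ _⟩
    · intro c
      rw [Matroid.comap_indep_iff, vv_image]
      exact ⟨hM c, vv_inj S c⟩
    · intro T hT _
      rw [Matroid.comap_indep_iff] at hT
      exact hT.1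
  · have hq : ∀ i : Fin m, ∃ q : {x // x ∈ S i} → ρ, Function.Injective q ∧
        ∀ x : {x // x ∈ S i}, adj (x : α) (q x) := fun i => (hadj (S i)).1 (hM i)
    choose q hq1 hq2 using hq
    obtain ⟨Q, hQ⟩ : ∃ Q : EE S → ρ, ∀ e, Q e = q e.1 e.2 := ⟨fun e => q e.1 e.2, fun _ => rfl⟩
    have hI : ∀ I, ((Matroid.freeOn univ : Matroid ρ).comap Q).Indep I ↔ InjOn Q I := by
      intro I
      rw [Matroid.comap_indep_iff, Matroid.freeOn_indep_iff]
      exact ⟨fun h => h.2, fun h => ⟨subset_univ _, h⟩⟩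
    refine ⟨_, ?_, ?_, lb_par ε d₀ tra Q s d f h hs _ hI _⟩
    · intro c
      rw [hI]
      rintro ⟨i, x⟩ hi ⟨j, y⟩ hj hxy
      rw [mem_preimage, mem_singleton_iff] at hi hj
      simp only at hi hj
      subst hi
      subst hj
      rw [hQ, hQ] at hxy
      have h1 : x = y := hq1 _ hxy
      rw [h1]
    · intro T hT hv
      rw [hI] at hT
      have hTf : (vv S '' T).Finite := (Set.toFinite T).image _
      have key := hadj hTf.toFinset
      rw [Set.Finite.coe_toFinset] at key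
      rw [key]
      have hex : ∀ x : {x // x ∈ hTf.toFinset}, ∃ e ∈ T, vv S e = x := by
        intro x
        have := x.2
        rw [Set.Finite.mem_toFinset] at this
        exact this
      choose g hg1 hg2 using hex
      refine ⟨fun x => Q (g x), ?_, ?_⟩
      · intro x y hxy
        have h1 := hT (hg1 x) (hg1 y) hxy
        apply Subtype.ext
        rw [← hg2 x, ← hg2 y, h1]
      · intro x
        have h1 : adj (vv S (g x)) (Q (g x)) := by
          rw [hQ]
          exact hq2 _ _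
        rwa [hg2 x] at h1

theorem sideP (ε : ℝ) (C d₀ : ℕ)
    (tra : ∀ (E : Type u) (K : Type) [Finite E] [Finite K]
      (M N : Matroid E) (κ : E → K) (s : ℕ) (R : Type u) [Finite R] (r : E → R), Col M N κ s →
      (∀ I, M.Indep I ↔ InjOn r I) →
      LB M N κ s (fun z => if z < d₀ then 0 else ⌊(1 / 2 - ε) * (z : ℝ) ^ 2⌋₊))
    (sup : ∀ (E : Type u) (K : Type) [Finite E] [Finite K]
      (M N : Matroid E) (κ : E → K) (s : ℕ), Col M N κ s →
      LB M N κ s (fun z => if z < d₀ then 0 else C * z))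
    (M : Matroid α) (s d f : ℕ) (hs : 0 < s) (hM : ∀ i, M.Indep (S i : Set α))
    (h : AdmP.{u, w} M ε C d₀ s d f) :
    ∃ M' : Matroid (EE S), (∀ c, M'.Indep ((Sigma.fst : EE S → Fin m) ⁻¹' {c})) ∧
      (∀ T, M'.Indep T → InjOn (vv S) T ∧ M.Indep (vv S '' T)) ∧
      ∃ F : ℕ → ℕ, (∀ N' : Matroid (EE S), Col M' N' (Sigma.fst : EE S → Fin m) s →
        LB M' N' (Sigma.fst : EE S → Fin m) s F) ∧ Monotone F ∧ f ≤ F d := by
  classical
  have hfin : Finite (EE S) := inferInstance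
  have hany : (∀ c, (M.comap (vv S)).Indep ((Sigma.fst : EE S → Fin m) ⁻¹' {c})) ∧
      (∀ T, (M.comap (vv S)).Indep T → InjOn (vv S) T ∧ M.Indep (vv S '' T)) := by
    constructor
    · intro c
      rw [Matroid.comap_indep_iff, vv_image]
      exact ⟨hM c, vv_inj S c⟩
    · intro T hT
      rw [Matroid.comap_indep_iff] at hT
      exact ⟨hT.2, hT.1⟩
  rcases h with h | ⟨h1, h2⟩ | ⟨ρ, r, hr, h⟩
  · exact ⟨M.comap (vv S), hany.1, hany.2, lb_any d f h s _ _⟩
  · refine ⟨M.comap (vv S), hany.1, hany.2, fun z => if z < d₀ then 0 else C * z,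
      fun N' hc => sup _ _ _ _ _ _ hc, ?_, ?_⟩
    · intro x y hxy
      show (if x < d₀ then 0 else C * x) ≤ (if y < d₀ then 0 else C * y)
      by_cases hx : x < d₀
      · rw [if_pos hx]
        exact Nat.zero_le _
      · rw [if_neg hx, if_neg (by omega)]
        exact Nat.mul_le_mul_left _ hxy
    · show f ≤ if d < d₀ then 0 else C * d
      rw [if_neg (by omega)]
      exact h2
  · have hI : ∀ I, ((Matroid.freeOn univ : Matroid ρ).comap (r ∘ vv S)).Indep I ↔
        InjOn (r ∘ vv S) I := by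
      intro I
      rw [Matroid.comap_indep_iff, Matroid.freeOn_indep_iff]
      exact ⟨fun h => h.2, fun h => ⟨subset_univ _, h⟩⟩
    refine ⟨_, ?_, ?_, lb_par ε d₀ tra (r ∘ vv S) s d f h hs _ hI _⟩
    · intro c
      rw [hI]
      refine InjOn.comp (t := (S c : Set α)) ((hr (S c)).1 (hM c)) (vv_inj S c) ?_
      rw [mapsTo_iff_image_subset, vv_image]
    · intro T hT
      rw [hI] at hT
      refine ⟨hT.of_comp, ?_⟩
      have hTf : (vv S '' T).Finite := (Set.toFinite T).image _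
      have key := hr hTf.toFinset
      rw [Set.Finite.coe_toFinset] at key
      rw [key]
      rintro _ ⟨a, ha, rfl⟩ _ ⟨b, hb, rfl⟩ hab
      rw [hT ha hb hab]

end

/-- the criterion -/
theorem crit (ε : ℝ) (hε : 0 < ε) (C : ℕ) :
    ∃ d₀ : ℕ, ∀ (α : Type u) (M N : Matroid α) (m s d f g : ℕ) (S : Fin m → Finset α),
      (∀ i, M.Indep (S i : Set α) ∧ N.Indep (S i : Set α) ∧ s ≤ (S i).card) →
      AdmT.{u, v} M ε d₀ s d f → AdmP.{u, w} N ε C d₀ s d g →
      (s < m + d ∧ s < f + d) ∨ (s + 2 ≤ m + d ∧ s < f + g + (m + d - s - 1) * d) →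
      ∃ (R : Finset α) (φ : {x // x ∈ R} → Fin m), s < R.card + d ∧ Function.Injective φ ∧
        (∀ x : {x // x ∈ R}, (x : α) ∈ S (φ x)) ∧ M.Indep (R : Set α) ∧ N.Indep (R : Set α) := by
  classical
  obtain ⟨z₁, hz₁⟩ := H20.tra.{u} ε hε
  obtain ⟨z₂, hz₂⟩ := H6A.sup_.{u} C
  obtain ⟨z₀, hz₀⟩ : ∃ z₀, z₀ = max (max z₁ z₂) 1 := ⟨_, rfl⟩
  have mono : ∀ (E : Type u) (K : Type) (M N : Matroid E) (κ : E → K) (s z₃ : ℕ) (f : ℕ → ℕ),
      z₃ ≤ z₀ → LB M N κ s (fun z => if z < z₃ then 0 else f z) →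
      LB M N κ s (fun z => if z < z₀ then 0 else f z) := by
    intro E K M N κ s z₃ f hz h t P X T z hmx hst hun hzs
    have h1 := h t P X T z hmx hst hun hzs
    show (if z < z₀ then 0 else f z) ≤ _
    by_cases hx : z < z₀
    · rw [if_pos hx]
      exact Nat.zero_le _
    · rw [if_neg hx]
      have h2 : ¬ z < z₃ := by omega
      have h3 : (if z < z₃ then 0 else f z) ≤ (T \ Sta M N κ P X T).ncard := h1
      rw [if_neg h2] at h3
      exact h3
  have hsup : ∀ (E : Type u) (K : Type) [Finite E] [Finite K]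
      (M N : Matroid E) (κ : E → K) (s : ℕ), Col M N κ s →
      LB M N κ s (fun z => if z < z₀ then 0 else C * z) := by
    intro E K _ _ M N κ s hc
    exact mono _ _ _ _ _ _ z₂ (fun z => C * z) (by omega) (hz₂ _ _ _ _ _ _ hc)
  have htra : ∀ (E : Type u) (K : Type) [Finite E] [Finite K]
      (M N : Matroid E) (κ : E → K) (s : ℕ) (R : Type u) [Finite R] (r : E → R), Col M N κ s →
      (∀ I, M.Indep I ↔ InjOn r I) →
      LB M N κ s (fun z => if z < z₀ then 0 else ⌊(1 / 2 - ε) * (z : ℝ) ^ 2⌋₊) := by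
    intro E K _ _ M N κ s R _ r hc hr
    exact mono _ _ _ _ _ _ z₁ (fun z => ⌊(1 / 2 - ε) * (z : ℝ) ^ 2⌋₊) (by omega)
      (hz₁ _ _ _ _ _ _ R r hc hr)
  refine ⟨z₀, fun α M N m s d f g S hS hf hg hc => ?_⟩
  by_cases hsd : s < d
  · exact ⟨∅, fun x => absurd x.2 (Finset.notMem_empty _), by simpa using hsd,
      fun x => absurd x.2 (Finset.notMem_empty _), fun x => absurd x.2 (Finset.notMem_empty _),
      by simp, by simp⟩
  have hd : 0 < d := by
    rcases Nat.eq_zero_or_pos d with h0 | h0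
    · exfalso
      subst h0
      have hz : ¬ z₀ ≤ 0 := by omega
      have hf0 : f = 0 := by
        rcases hf with h | ⟨ρ, adj, -, h⟩
        · omega
        · rcases h with h | ⟨h, -⟩ | ⟨-, h⟩
          · omega
          · exact absurd h hz
          · simpa using h
      have hg0 : g = 0 := by
        rcases hg with h | ⟨h, -⟩ | ⟨ρ, r, -, h⟩
        · omega
        · exact absurd h hz
        · rcases h with h | ⟨h, -⟩ | ⟨-, h⟩
          · omega
          · exact absurd h hz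
          · simpa using h
      rw [hf0, hg0] at hc
      rcases hc with hc | ⟨hc1, hc⟩
      · omega
      · omega
    · exact h0
  have hs : 0 < s := by omega
  obtain ⟨M', a1, a2, F, a3, a4, a5⟩ := sideT S ε z₀ htra M s d f hs (fun i => (hS i).1) hf
  obtain ⟨N', b1, b2, G, b3, b4, b5⟩ := sideP S ε C z₀ htra hsup N s d g hs
    (fun i => (hS i).2.1) hg
  have hcd : ∀ c, s ≤ ((Sigma.fst : EE S → Fin m) ⁻¹' {c}).ncard := by
    intro c
    rw [card_fib]
    exact (hS c).2.2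
  have hsd' : s - (s - d) = d := by omega
  have hcond' : (s - d < Fintype.card (Fin m) ∧ (s - d < F (s - (s - d)) ∨
      s - d < G (s - (s - d))) ∨ s - d + 2 ≤ Fintype.card (Fin m) ∧
        s - d < F (s - (s - d)) + G (s - (s - d)) +
          (Fintype.card (Fin m) - (s - d) - 2) * (s - (s - d))) := by
    rw [Fintype.card_fin, hsd']
    rcases hc with ⟨hc1, hc2⟩ | ⟨hc1, hc2⟩
    · exact Or.inl ⟨by omega, Or.inl (by omega)⟩
    · refine Or.inr ⟨by omega, ?_⟩
      obtain ⟨j, hj⟩ : ∃ j, m + d = s + 2 + j := ⟨m + d - (s + 2), by omega⟩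
      have e1 : m + d - s - 1 = j + 1 := by omega
      have e2 : m - (s - d) - 2 = j := by omega
      rw [e1, add_mul] at hc2
      rw [e2]
      omega
  obtain ⟨T, hT, hTc⟩ := H35.asm' (EE S) (Fin m) M' N' (Sigma.fst : EE S → Fin m) s (s - d) F G
    ⟨a1, b1, hcd⟩ (a3 N' ⟨a1, b1, hcd⟩) (b3 M' ⟨b1, a1, hcd⟩) a4 b4 (by omega) hcond'
  obtain ⟨hinj, hNi⟩ := b2 T hT.indN
  have hMi := a2 T hT.indM hinj
  have hTf : (vv S '' T).Finite := (Set.toFinite T).image _
  have hex : ∀ x : {x // x ∈ hTf.toFinset}, ∃ e ∈ T, vv S e = x := by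
    intro x
    have := x.2
    rw [Set.Finite.mem_toFinset] at this
    exact this
  choose q hq1 hq2 using hex
  refine ⟨hTf.toFinset, fun x => (q x).1, ?_, ?_, ?_, ?_, ?_⟩
  · rw [← Set.ncard_eq_toFinset_card _ hTf, hinj.ncard_image]
    omega
  · intro x y hxy
    have h1 := hT.inj (hq1 x) (hq1 y) hxy
    apply Subtype.ext
    rw [← hq2 x, ← hq2 y, h1]
  · intro x
    have h1 : ∀ e : EE S, vv S e ∈ S e.1 := fun e => e.2.2
    have h2 := h1 (q x)
    rwa [hq2 x] at h2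
  · rw [Set.Finite.coe_toFinset]
    exact hMi
  · rw [Set.Finite.coe_toFinset]
    exact hNi

end Pool.Agent.RCM.H35T
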